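import Pool.Agent.Y528.KL.Defs

/-!
# Frege proofs: derived rules for conjunctions, disjunctions and evaluation
-/

set_option autoImplicit false

namespace Pool.Agent.Y511.KL

open Pool.Agent.H555R2.PF Pool.Agent.H555R2.PF.Fm Pool.Agent.TH677.EF Pool.Agent.Y528.KL

variable {F : List Rule}

theorem toCa {A : Fm} {m : ℕ} (h : Pf F A m) : Ca F ∅ [A] m := by
  obtain ⟨D, h1, h2, h3⟩ := h
  intro L hL _
  exact ⟨D, hL.append h1, by simpa using Or.inl h2, h3⟩

theorem toPf {A : Fm} {m : ℕ} (h : Ca F ∅ [A] m) : Pf F A m := by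
  obtain ⟨D, h1, h2, h3⟩ := h [] Fr.nil (by simp)
  exact ⟨D, by simpa using h1, by simpa using h2, h3⟩

/-- schematic rules -/
theorem sch (hF : IsFrege F) (Γ₀ : List Fm) (B₀ : Fm) (h : Entails Γ₀ B₀) :
    ∃ c : ℕ, ∀ (l : List Fm) (M m : ℕ), 1 ≤ M → (∀ X ∈ l, X.size ≤ M) →
      Ca F ∅ (Γ₀.map (Fm.subst (asg l))) m → Ca F ∅ [B₀.subst (asg l)] (m + c * M) := by
  obtain ⟨c, hc⟩ := schemaC hF Γ₀ B₀ h
  refine ⟨c, fun l M m hM hl hm => hm.cut ?_⟩
  apply hc l M hM hl
  intro A hA
  right
  exact List.mem_map.2 ⟨A, hA, rfl⟩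

/-- schematic rules without premise -/
theorem sch0 (hF : IsFrege F) (B₀ : Fm) (h : Entails [] B₀) :
    ∃ c : ℕ, ∀ (l : List Fm) (M : ℕ), 1 ≤ M → (∀ X ∈ l, X.size ≤ M) →
      Ca F ∅ [B₀.subst (asg l)] (c * M) := by
  obtain ⟨c, hc⟩ := sch hF [] B₀ h
  refine ⟨c, fun l M hM hl => ?_⟩
  have := hc l M 0 hM hl (by simpa using (Ca.nil : Ca F ∅ [] 0))
  simpa using this

/-- schematic rules with one premise -/
theorem sch1 (hF : IsFrege F) (A₀ B₀ : Fm) (h : Entails [A₀] B₀) :
    ∃ c : ℕ, ∀ (l : List Fm) (M m : ℕ), 1 ≤ M → (∀ X ∈ l, X.size ≤ M) →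
      Ca F ∅ [A₀.subst (asg l)] m → Ca F ∅ [B₀.subst (asg l)] (m + c * M) := by
  obtain ⟨c, hc⟩ := sch hF [A₀] B₀ h
  exact ⟨c, fun l M m hM hl h1 => hc l M m hM hl h1⟩

/-- schematic rules with two premises -/
theorem sch2 (hF : IsFrege F) (A₀ A₁ B₀ : Fm) (h : Entails [A₀, A₁] B₀) :
    ∃ c : ℕ, ∀ (l : List Fm) (M m m' : ℕ), 1 ≤ M → (∀ X ∈ l, X.size ≤ M) →
      Ca F ∅ [A₀.subst (asg l)] m → Ca F ∅ [A₁.subst (asg l)] m' →
      Ca F ∅ [B₀.subst (asg l)] (m + m' + c * M) := by
  obtain ⟨c, hc⟩ := sch hF [A₀, A₁] B₀ h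
  exact ⟨c, fun l M m m' hM hl h1 h2 => hc l M (m + m') hM hl (h1.append h2)⟩

/-! ### lists -/

theorem AND_size (l : List Fm) (s : ℕ) (h : ∀ A ∈ l, A.size ≤ s) :
    (AND l).size ≤ 3 + l.length * (s + 1) := by
  induction l with
  | nil => simp [AND, size]
  | cons A l ih =>
    have h1 := h A (by simp)
    have h2 := ih fun B hB => h B (by simp [hB])
    simp only [AND, size, List.length_cons]
    nlinarith

theorem OR_size (l : List Fm) (s : ℕ) (h : ∀ A ∈ l, A.size ≤ s) :
    (OR l).size ≤ 4 + l.length * (s + 1) := by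
  induction l with
  | nil => simp [OR, size]
  | cons A l ih =>
    have h1 := h A (by simp)
    have h2 := ih fun B hB => h B (by simp [hB])
    simp only [OR, size, List.length_cons]
    nlinarith

theorem length_le_AND (l : List Fm) : l.length ≤ (AND l).size := by
  induction l with
  | nil => simp
  | cons A l ih => simp only [AND, size, List.length_cons]; omega

theorem length_le_OR (l : List Fm) : l.length ≤ (OR l).size := by
  induction l with
  | nil => simp
  | cons A l ih => simp only [OR, size, List.length_cons]; omega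

theorem mem_size_AND {l : List Fm} {A : Fm} (h : A ∈ l) : A.size ≤ (AND l).size := by
  induction l with
  | nil => simp at h
  | cons B l ih =>
    simp only [AND, size]
    rcases List.mem_cons.1 h with rfl | h
    · omega
    · have := ih h; omega

theorem mem_size_OR {l : List Fm} {A : Fm} (h : A ∈ l) : A.size ≤ (OR l).size := by
  induction l with
  | nil => simp at h
  | cons B l ih =>
    simp only [OR, size]
    rcases List.mem_cons.1 h with rfl | h
    · omega
    · have := ih h; omega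

/-- a member of a conjunction -/
theorem and_mem (hF : IsFrege F) : ∃ c : ℕ, ∀ (l : List Fm) (M : ℕ), (AND l).size ≤ M →
    ∀ A ∈ l, Ca F ∅ [imp (AND l) A] (c * M * l.length) := by
  obtain ⟨c₁, h₁⟩ := sch0 hF (imp (and (var 0) (var 1)) (var 0)) (by
    intro v _; simp [eval]; tauto)
  obtain ⟨c₂, h₂⟩ := sch1 hF (imp (var 1) (var 2)) (imp (and (var 0) (var 1)) (var 2)) (by
    intro v h; simp [eval] at h ⊢; tauto)
  refine ⟨c₁ + c₂, fun l M => ?_⟩
  induction l with
  | nil => intro _ A hA; simp at hA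
  | cons B l ih =>
    intro hs A hA
    have hM : 1 ≤ M := (size_pos _).trans hs
    have hs' : B.size ≤ M ∧ (AND l).size ≤ M := by
      simp only [AND, size] at hs; omega
    rcases List.mem_cons.1 hA with rfl | hA
    · refine (h₁ [A, AND l] M hM ?_).le ?_
      · intro X hX; simp at hX; rcases hX with rfl | rfl; exacts [hs'.1, hs'.2]
      · simp only [List.length_cons]
        calc c₁ * M ≤ (c₁ + c₂) * M := Nat.mul_le_mul_right _ (by omega)
          _ ≤ (c₁ + c₂) * M * (l.length + 1) := Nat.le_mul_of_pos_right _ (Nat.succ_pos _)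
    · have h3 := ih hs'.2 A hA
      have hCs : A.size ≤ M := (mem_size_AND hA).trans hs'.2
      have h5 := h₂ [B, AND l, A] M _ hM (by
        intro X hX; simp at hX; rcases hX with rfl | rfl | rfl
        exacts [hs'.1, hs'.2, hCs]) (by simpa [subst, asg] using h3)
      refine Ca.le (by simpa [subst, asg, AND] using h5) ?_
      simp only [List.length_cons]; nlinarith

/-- introduction of a disjunction -/
theorem or_intro (hF : IsFrege F) : ∃ c : ℕ, ∀ (l : List Fm) (M : ℕ), (OR l).size ≤ M →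
    ∀ A ∈ l, Ca F ∅ [imp A (OR l)] (c * M * l.length) := by
  obtain ⟨c₁, h₁⟩ := sch0 hF (imp (var 0) (or (var 0) (var 1))) (by
    intro v _; simp [eval]; tauto)
  obtain ⟨c₂, h₂⟩ := sch1 hF (imp (var 2) (var 1)) (imp (var 2) (or (var 0) (var 1))) (by
    intro v h; simp [eval] at h ⊢; tauto)
  refine ⟨c₁ + c₂, fun l M => ?_⟩
  induction l with
  | nil => intro _ A hA; simp at hA
  | cons B l ih =>
    intro hs A hA
    have hM : 1 ≤ M := (size_pos _).trans hs
    have hs' : B.size ≤ M ∧ (OR l).size ≤ M := by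
      simp only [OR, size] at hs; omega
    rcases List.mem_cons.1 hA with rfl | hA
    · refine (h₁ [A, OR l] M hM ?_).le ?_
      · intro X hX; simp at hX; rcases hX with rfl | rfl; exacts [hs'.1, hs'.2]
      · simp only [List.length_cons]
        calc c₁ * M ≤ (c₁ + c₂) * M := Nat.mul_le_mul_right _ (by omega)
          _ ≤ (c₁ + c₂) * M * (l.length + 1) := Nat.le_mul_of_pos_right _ (Nat.succ_pos _)
    · have h3 := ih hs'.2 A hA
      have hCs : A.size ≤ M := (mem_size_OR hA).trans hs'.2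
      have h5 := h₂ [B, OR l, A] M _ hM (by
        intro X hX; simp at hX; rcases hX with rfl | rfl | rfl
        exacts [hs'.1, hs'.2, hCs]) (by simpa [subst, asg] using h3)
      refine Ca.le (by simpa [subst, asg, OR] using h5) ?_
      simp only [List.length_cons]; nlinarith

/-- a member of a false disjunction -/
theorem or_neg (hF : IsFrege F) : ∃ c : ℕ, ∀ (l : List Fm) (M : ℕ), (OR l).size ≤ M →
    ∀ A ∈ l, Ca F ∅ [imp (neg (OR l)) (neg A)] (c * M * l.length) := by
  obtain ⟨c₁, h₁⟩ := sch0 hF (imp (neg (or (var 0) (var 1))) (neg (var 0))) (by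
    intro v _; simp [eval]; tauto)
  obtain ⟨c₂, h₂⟩ := sch1 hF (imp (neg (var 1)) (neg (var 2)))
    (imp (neg (or (var 0) (var 1))) (neg (var 2))) (by
    intro v h; simp [eval] at h ⊢; tauto)
  refine ⟨c₁ + c₂, fun l M => ?_⟩
  induction l with
  | nil => intro _ A hA; simp at hA
  | cons B l ih =>
    intro hs A hA
    have hM : 1 ≤ M := (size_pos _).trans hs
    have hs' : B.size ≤ M ∧ (OR l).size ≤ M := by
      simp only [OR, size] at hs; omega
    rcases List.mem_cons.1 hA with rfl | hA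
    · refine (h₁ [A, OR l] M hM ?_).le ?_
      · intro X hX; simp at hX; rcases hX with rfl | rfl; exacts [hs'.1, hs'.2]
      · simp only [List.length_cons]
        calc c₁ * M ≤ (c₁ + c₂) * M := Nat.mul_le_mul_right _ (by omega)
          _ ≤ (c₁ + c₂) * M * (l.length + 1) := Nat.le_mul_of_pos_right _ (Nat.succ_pos _)
    · have h3 := ih hs'.2 A hA
      have hCs : A.size ≤ M := (mem_size_OR hA).trans hs'.2
      have h5 := h₂ [B, OR l, A] M _ hM (by
        intro X hX; simp at hX; rcases hX with rfl | rfl | rfl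
        exacts [hs'.1, hs'.2, hCs]) (by simpa [subst, asg] using h3)
      refine Ca.le (by simpa [subst, asg, OR] using h5) ?_
      simp only [List.length_cons]; nlinarith

/-- elimination of a disjunction -/
theorem or_elim (hF : IsFrege F) : ∃ c : ℕ, ∀ (U G : Fm) (l : List Fm) (M m : ℕ), U.size ≤ M →
    G.size ≤ M → (OR l).size ≤ M → (∀ A ∈ l, Ca F ∅ [imp U (imp A G)] m) →
    Ca F ∅ [imp U (imp (OR l) G)] (l.length * m + c * M * (l.length + 1)) := by
  obtain ⟨c₁, h₁⟩ := sch0 hF (imp (var 0) (imp (neg (imp (var 1) (var 1))) (var 2))) (by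
    intro v _; simp [eval])
  obtain ⟨c₂, h₂⟩ := sch2 hF (imp (var 0) (imp (var 1) (var 3)))
    (imp (var 0) (imp (var 2) (var 3))) (imp (var 0) (imp (or (var 1) (var 2)) (var 3))) (by
    intro v h; simp [eval] at h ⊢; tauto)
  refine ⟨c₁ + c₂, fun U G l M m hU hG => ?_⟩
  have hM : 1 ≤ M := (size_pos _).trans hU
  induction l with
  | nil =>
    intro _ _
    refine Ca.le (h₁ [U, var 0, G] M hM ?_) ?_
    · intro X hX; simp at hX
      rcases hX with rfl | rfl | rfl
      exacts [hU, by simpa [size] using hM, hG]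
    · simp only [List.length_nil, zero_add, mul_one, zero_mul]
      exact Nat.mul_le_mul_right _ (by omega)
  | cons A l ih =>
    intro hs hA
    have hs' : A.size ≤ M ∧ (OR l).size ≤ M := by
      simp only [OR, size] at hs; omega
    have h3 := ih hs'.2 (fun B hB => hA B (by simp [hB]))
    have h5 := h₂ [U, A, OR l, G] M _ _ hM (by
      intro X hX; simp at hX; rcases hX with rfl | rfl | rfl | rfl
      exacts [hU, hs'.1, hs'.2, hG]) (by simpa [subst, asg] using hA A (by simp))
      (by simpa [subst, asg] using h3)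
    refine Ca.le (by simpa [subst, asg, OR] using h5) ?_
    simp only [List.length_cons]; nlinarith

/-! ### evaluation -/

/-- `A` or `¬ A` -/
def sg (b : Bool) (A : Fm) : Fm := cond b A (neg A)

theorem sg_subst (b : Bool) (A : Fm) (σ : ℕ → Fm) : (sg b A).subst σ = sg b (A.subst σ) := by
  cases b <;> rfl

/-- truth value -/
def ev (v : ℕ → Bool) : Fm → Bool
  | Fm.var n => v n
  | Fm.neg A => !(ev v A)
  | Fm.and A B => ev v A && ev v B
  | Fm.or A B => ev v A || ev v B
  | Fm.imp A B => !(ev v A) || ev v B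

theorem ev_iff (v : ℕ → Bool) (C : Fm) : ev v C = true ↔ C.eval (fun n => v n = true) := by
  induction C with
  | var n => rfl
  | neg A ih => simp only [ev, eval, ← ih]; cases ev v A <;> simp
  | and A B iA iB => simp only [ev, eval, ← iA, ← iB]; cases ev v A <;> cases ev v B <;> simp
  | or A B iA iB => simp only [ev, eval, ← iA, ← iB]; cases ev v A <;> cases ev v B <;> simp
  | imp A B iA iB => simp only [ev, eval, ← iA, ← iB]; cases ev v A <;> cases ev v B <;> simp

theorem evs (hF : IsFrege F) : ∃ c : ℕ, ∀ (v : ℕ → Bool) (σ : ℕ → Fm) (U : Fm) (M : ℕ),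
    U.size ≤ M → ∀ C : Fm, (C.subst σ).size ≤ M →
    ∀ Γ : Set Fm, (∀ n ∈ C.vars, imp U (sg (v n) (σ n)) ∈ Γ) →
      Ca F Γ [imp U (sg (ev v C) (C.subst σ))] (c * M * C.size) := by
  have h1 : ∀ b : Bool, ∃ c : ℕ, ∀ (l : List Fm) (M : ℕ), 1 ≤ M → (∀ X ∈ l, X.size ≤ M) →
      ∀ Γ : Set Fm, (∀ A ∈ [imp (var 0) (sg b (var 1))], A.subst (asg l) ∈ Γ) →
        Ca F Γ [(imp (var 0) (sg (!b) (neg (var 1)))).subst (asg l)] (c * M) := fun b =>
    schemaC hF _ _ (by intro v h; cases b <;> simp [sg, eval] at h ⊢ <;> tauto)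
  have h2 : ∀ b b' : Bool, ∃ c : ℕ, ∀ (l : List Fm) (M : ℕ), 1 ≤ M → (∀ X ∈ l, X.size ≤ M) →
      ∀ Γ : Set Fm, (∀ A ∈ [imp (var 0) (sg b (var 1)), imp (var 0) (sg b' (var 2))],
        A.subst (asg l) ∈ Γ) →
        Ca F Γ [(imp (var 0) (sg (b && b') (and (var 1) (var 2)))).subst (asg l)] (c * M) :=
    fun b b' => schemaC hF _ _ (by
      intro v h; cases b <;> cases b' <;> simp [sg, eval] at h ⊢ <;> tauto)
  have h3 : ∀ b b' : Bool, ∃ c : ℕ, ∀ (l : List Fm) (M : ℕ), 1 ≤ M → (∀ X ∈ l, X.size ≤ M) →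
      ∀ Γ : Set Fm, (∀ A ∈ [imp (var 0) (sg b (var 1)), imp (var 0) (sg b' (var 2))],
        A.subst (asg l) ∈ Γ) →
        Ca F Γ [(imp (var 0) (sg (b || b') (or (var 1) (var 2)))).subst (asg l)] (c * M) :=
    fun b b' => schemaC hF _ _ (by
      intro v h; cases b <;> cases b' <;> simp [sg, eval] at h ⊢ <;> tauto)
  have h4 : ∀ b b' : Bool, ∃ c : ℕ, ∀ (l : List Fm) (M : ℕ), 1 ≤ M → (∀ X ∈ l, X.size ≤ M) →
      ∀ Γ : Set Fm, (∀ A ∈ [imp (var 0) (sg b (var 1)), imp (var 0) (sg b' (var 2))],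
        A.subst (asg l) ∈ Γ) →
        Ca F Γ [(imp (var 0) (sg (!b || b') (imp (var 1) (var 2)))).subst (asg l)] (c * M) :=
    fun b b' => schemaC hF _ _ (by
      intro v h; cases b <;> cases b' <;> simp [sg, eval] at h ⊢ <;> tauto)
  choose c₁ h₁ using h1
  choose c₂ h₂ using h2
  choose c₃ h₃ using h3
  choose c₄ h₄ using h4
  have hsum : ∃ c : ℕ, (∀ b, c₁ b ≤ c) ∧ (∀ b b', c₂ b b' ≤ c) ∧ (∀ b b', c₃ b b' ≤ c) ∧
      (∀ b b', c₄ b b' ≤ c) := by
    refine ⟨∑ b, c₁ b + ∑ b, ∑ b', c₂ b b' + ∑ b, ∑ b', c₃ b b' + ∑ b, ∑ b', c₄ b b',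
      ?_, ?_, ?_, ?_⟩ <;> simp only [Fintype.sum_bool]
    · intro b; cases b <;> omega
    · intro b b'; cases b <;> cases b' <;> omega
    · intro b b'; cases b <;> cases b' <;> omega
    · intro b b'; cases b <;> cases b' <;> omega
  obtain ⟨c, hc1, hc2, hc3, hc4⟩ := hsum
  refine ⟨c, fun v σ U M hU C => ?_⟩
  have hM : 1 ≤ M := (size_pos U).trans hU
  induction C with
  | var n =>
    intro _ Γ hΓ
    exact (Ca.hyp (hΓ n (by simp [vars]))).mono subset_rfl (Nat.zero_le _)
  | neg C ih =>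
    intro hs Γ hΓ
    simp only [subst, size] at hs
    have r := ih (by omega) Γ hΓ
    have s := h₁ (ev v C) [U, C.subst σ] M hM (by
      intro X hX; simp at hX; rcases hX with rfl | rfl
      exacts [hU, by omega]) (Γ ∪ {Y | Y ∈ [imp U (sg (ev v C) (C.subst σ))]}) (by
      intro Y hY; simp only [List.mem_singleton] at hY; subst hY
      right; simp [subst, asg, sg_subst])
    refine ((r.cut s).sub (by simp [subst, asg, sg_subst, ev])).mono subset_rfl ?_
    simp only [size]
    have := Nat.mul_le_mul_right M (hc1 (ev v C))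
    nlinarith
  | and A B iA iB =>
    intro hs Γ hΓ
    simp only [subst, size] at hs
    have rA := iA (by omega) Γ (fun n hn => hΓ n (by simp [vars, hn]))
    have rB := iB (by omega) Γ (fun n hn => hΓ n (by simp [vars, hn]))
    have s := h₂ (ev v A) (ev v B) [U, A.subst σ, B.subst σ] M hM (by
      intro X hX; simp at hX; rcases hX with rfl | rfl | rfl
      exacts [hU, by omega, by omega])
      (Γ ∪ {Y | Y ∈ [imp U (sg (ev v A) (A.subst σ))] ++ [imp U (sg (ev v B) (B.subst σ))]}) (by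
      intro Y hY; simp only [List.mem_cons, List.not_mem_nil, or_false] at hY
      rcases hY with rfl | rfl <;> right <;> simp [subst, asg, sg_subst])
    refine (((rA.append rB).cut s).sub (by simp [subst, asg, sg_subst, ev])).mono subset_rfl ?_
    simp only [size]
    have := Nat.mul_le_mul_right M (hc2 (ev v A) (ev v B))
    nlinarith
  | or A B iA iB =>
    intro hs Γ hΓ
    simp only [subst, size] at hs
    have rA := iA (by omega) Γ (fun n hn => hΓ n (by simp [vars, hn]))
    have rB := iB (by omega) Γ (fun n hn => hΓ n (by simp [vars, hn]))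
    have s := h₃ (ev v A) (ev v B) [U, A.subst σ, B.subst σ] M hM (by
      intro X hX; simp at hX; rcases hX with rfl | rfl | rfl
      exacts [hU, by omega, by omega])
      (Γ ∪ {Y | Y ∈ [imp U (sg (ev v A) (A.subst σ))] ++ [imp U (sg (ev v B) (B.subst σ))]}) (by
      intro Y hY; simp only [List.mem_cons, List.not_mem_nil, or_false] at hY
      rcases hY with rfl | rfl <;> right <;> simp [subst, asg, sg_subst])
    refine (((rA.append rB).cut s).sub (by simp [subst, asg, sg_subst, ev])).mono subset_rfl ?_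
    simp only [size]
    have := Nat.mul_le_mul_right M (hc3 (ev v A) (ev v B))
    nlinarith
  | imp A B iA iB =>
    intro hs Γ hΓ
    simp only [subst, size] at hs
    have rA := iA (by omega) Γ (fun n hn => hΓ n (by simp [vars, hn]))
    have rB := iB (by omega) Γ (fun n hn => hΓ n (by simp [vars, hn]))
    have s := h₄ (ev v A) (ev v B) [U, A.subst σ, B.subst σ] M hM (by
      intro X hX; simp at hX; rcases hX with rfl | rfl | rfl
      exacts [hU, by omega, by omega])
      (Γ ∪ {Y | Y ∈ [imp U (sg (ev v A) (A.subst σ))] ++ [imp U (sg (ev v B) (B.subst σ))]}) (by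
      intro Y hY; simp only [List.mem_cons, List.not_mem_nil, or_false] at hY
      rcases hY with rfl | rfl <;> right <;> simp [subst, asg, sg_subst])
    refine (((rA.append rB).cut s).sub (by simp [subst, asg, sg_subst, ev])).mono subset_rfl ?_
    simp only [size]
    have := Nat.mul_le_mul_right M (hc4 (ev v A) (ev v B))
    nlinarith

/-- evaluation of a formula in the variables `< W` -/
theorem evW (hF : IsFrege F) : ∃ c : ℕ, ∀ (v : ℕ → Bool) (σ : ℕ → Fm) (U : Fm) (M W m : ℕ),
    U.size ≤ M → ∀ C : Fm, (C.subst σ).size ≤ M → C.size ≤ M → (∀ n ∈ C.vars, n < W) →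
    (∀ n < W, Ca F ∅ [imp U (sg (v n) (σ n))] m) →
      C.eval (fun n => v n = true) → Ca F ∅ [imp U (C.subst σ)] (W * m + c * M * M) := by
  obtain ⟨c, hc⟩ := evs hF
  refine ⟨c, fun v σ U M W m hU C hs hC hv hm he => ?_⟩
  have h1 : Ca F ∅ ((List.range W).map fun n => imp U (sg (v n) (σ n))) (W * m) := by
    have := Ca.many (F := F) (Γ := ∅) (fun n => imp U (sg (v n) (σ n))) m (List.range W)
      (fun i hi => hm i (List.mem_range.1 hi))
    simpa using this
  have h2 := hc v σ U M hU C hs (∅ ∪ {Y | Y ∈ (List.range W).map fun n => imp U (sg (v n) (σ n))})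
    (by
      intro n hn
      right
      exact List.mem_map.2 ⟨n, List.mem_range.2 (hv n hn), rfl⟩)
  have h3 := h1.cut h2
  have h4 : ev v C = true := (ev_iff v C).2 he
  rw [h4] at h3
  refine Ca.le h3 ?_
  have := Nat.mul_le_mul_left (c * M) hC
  omega

end Pool.Agent.Y511.KL
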