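import Pool.Agent.Y511.KL.Php

/-!
# The pigeonhole principle has polynomial-size Frege proofs, from the counting formulas
-/

set_option autoImplicit false

namespace Pool.Agent.Y511.KL

open Pool.Agent.H555R2.PF Pool.Agent.H555R2.PF.Fm Pool.Agent.TH677.EF Pool.Agent.Y528.KL

variable {F : List Rule}

theorem phpT_size (P H : ℕ) : (phpT P H).size ≤ 3 + P * (2 * H + 5) := by
  have h := AND_size ((List.range P).map fun a => OR ((List.range H).map fun b =>
    var (Nat.pair a b))) (2 * H + 4) (by
    intro A hA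
    obtain ⟨a, _, rfl⟩ := List.mem_map.1 hA
    have := OR_size ((List.range H).map fun b => var (Nat.pair a b)) 1 (by
      intro A hA
      obtain ⟨i, _, rfl⟩ := List.mem_map.1 hA
      simp [size])
    simp only [List.length_map, List.length_range] at this
    omega)
  simp only [List.length_map, List.length_range] at h
  exact h

theorem length_flatMap_le {α β : Type} (f : α → List β) (k : ℕ) (l : List α)
    (h : ∀ a ∈ l, (f a).length ≤ k) : (l.flatMap f).length ≤ l.length * k := by
  induction l with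
  | nil => simp
  | cons a l ih =>
    have h1 := h a (by simp)
    have h2 := ih fun b hb => h b (by simp [hb])
    simp only [List.flatMap_cons, List.length_append, List.length_cons]
    nlinarith

theorem phpI_size (P H : ℕ) : (phpI P H).size ≤ 3 + P * (P * H) * 5 := by
  have h := AND_size ((List.range P).flatMap fun a => (List.range a).flatMap fun a' =>
    (List.range H).map fun b => neg (Fm.and (var (Nat.pair a b)) (var (Nat.pair a' b)))) 4 (by
    intro A hA
    obtain ⟨a, _, hA⟩ := List.mem_flatMap.1 hA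
    obtain ⟨a', _, hA⟩ := List.mem_flatMap.1 hA
    obtain ⟨b, _, rfl⟩ := List.mem_map.1 hA
    simp [size])
  have h2 := length_flatMap_le (fun a => (List.range a).flatMap fun a' =>
    (List.range H).map fun b => neg (Fm.and (var (Nat.pair a b)) (var (Nat.pair a' b)))) (P * H)
    (List.range P) (by
      intro a ha
      have ha := List.mem_range.1 ha
      have h3 := length_flatMap_le (fun a' => (List.range H).map fun b =>
        neg (Fm.and (var (Nat.pair a b)) (var (Nat.pair a' b)))) H (List.range a) (by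
          intro a' _; simp)
      rw [List.length_range] at h3
      exact h3.trans (Nat.mul_le_mul_right _ ha.le))
  rw [List.length_range] at h2
  calc _ ≤ _ := h
    _ ≤ _ := by nlinarith

/-- the substitution of the additivity template -/
def sg2 (P j : ℕ) (n : ℕ) : Fm := if n % 2 = 0 then XX P j (n / 2) else Rr P j (n / 2)

theorem sg2_even (P j i : ℕ) : sg2 P j (2 * i) = XX P j i := by
  have h1 : 2 * i % 2 = 0 := by omega
  have h2 : 2 * i / 2 = i := by omega
  simp [sg2]

theorem sg2_odd (P j i : ℕ) : sg2 P j (2 * i + 1) = Rr P j i := by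
  have h1 : (2 * i + 1) % 2 = 1 := by omega
  have h2 : (2 * i + 1) / 2 = i := by omega
  simp [sg2, h1, h2]

theorem sg2_size {P j : ℕ} (hj : j < P) (n : ℕ) : (sg2 P j n).size ≤ 5 * P + 20 := by
  unfold sg2
  split_ifs
  · have := XX_size P j (n / 2); omega
  · have := Rr_size P j (n / 2); omega

theorem ctx {e P H : ℕ} {cnt : ℕ → Fm} (hHP : H < P)
    (h : Cnt F e (Nat.log 2 P + 1) cnt) :
    Ctx F P H (Nat.log 2 P + 1) ((P + 2) ^ (2 * e + 8)) cnt := by
  set L := Nat.log 2 P + 1 with hL
  have hP0 : P ≠ 0 := by omega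
  have hPW : P < 2 ^ L := Nat.lt_pow_succ_log_self (by norm_num) P
  have hWP : 2 ^ L ≤ 2 * P := by
    rw [hL, pow_succ]
    have := Nat.pow_log_le_self 2 hP0
    omega
  have hP1 : 1 ≤ P := by omega
  set N := P + 2 with hN
  have hN1 : 1 ≤ N := by omega
  -- the basic bound
  have hQ : 2 ^ (e * (L + 1)) ≤ N ^ (2 * e) := by
    rw [mul_comm e (L + 1), pow_mul, mul_comm 2 e, mul_comm e 2, pow_mul]
    refine Nat.pow_le_pow_left ?_ e
    rw [pow_succ]
    nlinarith
  have h3 : 5 * P + 21 ≤ N ^ 3 := by rw [hN]; nlinarith [sq_nonneg P, Nat.zero_le (P * P * P)]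
  have h2 : P + 5 ≤ N ^ 2 := by rw [hN]; nlinarith
  have hpow : N ^ (2 * e) * N ^ 3 ≤ N ^ (2 * e + 8) := by
    rw [← pow_add]; exact Nat.pow_le_pow_right hN1 (by omega)
  have hNe : 1 ≤ N ^ (2 * e) := Nat.one_le_pow _ _ hN1
  refine ⟨hHP, hPW, hWP, ?_, h.sem, h.vars, ?_, ?_, ?_⟩
  · -- size of the hypothesis
    have t1 := phpT_size P H
    have t2 := phpI_size P H
    have t3 : (UU P H).size ≤ 7 + P * (2 * H + 5) + P * (P * H) * 5 := by
      simp only [UU, size]; omega
    have t4 : N ^ 6 ≤ N ^ (2 * e + 8) := Nat.pow_le_pow_right hN1 (by omega)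
    refine le_trans ?_ t4
    have t5 : P * (2 * H + 5) ≤ 2 * (P * P) + 5 * P := by nlinarith
    have t6 : P * (P * H) ≤ P * P * P := by nlinarith [Nat.mul_le_mul_left (P * P) hHP.le]
    have t7 : (UU P H).size + 5 * P + 30 ≤ 37 + 10 * P + 2 * (P * P) + 5 * (P * P * P) := by omega
    refine t7.trans ?_
    have t8 : 37 + 10 * P + 2 * (P * P) + 5 * (P * P * P) ≤ 5 * N ^ 3 := by
      rw [hN]; nlinarith
    have t9 : 5 * N ^ 3 ≤ N ^ 6 := by
      have : 5 ≤ N ^ 3 := by
        calc 5 ≤ 3 ^ 3 := by norm_num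
          _ ≤ N ^ 3 := Nat.pow_le_pow_left (by omega) 3
      calc 5 * N ^ 3 ≤ N ^ 3 * N ^ 3 := Nat.mul_le_mul_right _ this
        _ = N ^ 6 := by ring
    exact t8.trans t9
  · intro r hr
    have t1 := (h.size r hr).trans hQ
    calc (P + 5) * ((cnt r).size * (5 * P + 20) + 1)
        ≤ (P + 5) * (N ^ (2 * e) * (5 * P + 20) + N ^ (2 * e)) :=
          Nat.mul_le_mul_left _ (Nat.add_le_add (Nat.mul_le_mul_right _ t1) hNe)
      _ = (P + 5) * (N ^ (2 * e) * (5 * P + 21)) := by ring
      _ ≤ N ^ 2 * (N ^ (2 * e) * N ^ 3) := Nat.mul_le_mul h2 (Nat.mul_le_mul_left _ h3)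
      _ = N ^ (2 * e + 5) := by rw [← pow_add, ← pow_add]; congr 1; omega
      _ ≤ _ := Nat.pow_le_pow_right hN1 (by omega)
  · intro r s hr hs hrs
    have t := Ca.inst (σ := XX P H) (M := 5 * P + 20) (toCa (h.excl r s hr hs hrs)) (by omega)
      (fun n => by have := XX_size P H n; omega)
    refine Ca.le (by simpa [subst] using t) ?_
    calc 2 ^ (e * (L + 1)) * (5 * P + 20) ≤ N ^ (2 * e) * N ^ 3 :=
          Nat.mul_le_mul hQ (by omega)
      _ ≤ _ := hpow
  · intro j hj r s hr hs
    have t := Ca.inst (σ := sg2 P j) (M := 5 * P + 20) (toCa (h.add r s hr hs)) (by omega)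
      (sg2_size (by omega))
    have e1 : ∀ A : Fm, (A.subst fun i => var (2 * i)).subst (sg2 P j) = A.subst (XX P j) := by
      intro A
      rw [subst_subst]
      congr 1
      funext i
      exact sg2_even P j i
    have e2 : ∀ A : Fm, (A.subst fun i => Fm.and (neg (var (2 * i))) (var (2 * i + 1))).subst
        (sg2 P j) = A.subst (YY P j) := by
      intro A
      rw [subst_subst]
      congr 1
      funext i
      simp only [subst, sg2_even, sg2_odd, YY]
    have e3 : ∀ A : Fm, (A.subst fun i => Fm.or (var (2 * i)) (var (2 * i + 1))).subst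
        (sg2 P j) = A.subst (XX P (j + 1)) := by
      intro A
      rw [subst_subst]
      congr 1
      funext i
      simp only [subst, sg2_even, sg2_odd, XX]
    simp only [List.map_cons, List.map_nil, subst, e1, e2, e3] at t
    refine Ca.le t ?_
    calc 2 ^ (e * (L + 1)) * (5 * P + 20) ≤ N ^ (2 * e) * N ^ 3 :=
          Nat.mul_le_mul hQ (by omega)
      _ ≤ _ := hpow

/-- Job KL-PHP: polynomial-size Frege proofs of the pigeonhole principle. -/
theorem t_php : T_CNT → T_PHP := by
  intro hC F hF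
  obtain ⟨e, he⟩ := hC F hF
  obtain ⟨c, hc⟩ := refute hF
  refine ⟨c + (2 * e + 8) * 6, fun P H hHP => ?_⟩
  obtain ⟨cnt, hcnt⟩ := he (Nat.log 2 P + 1)
  have h := hc P H _ _ cnt (ctx hHP hcnt)
  refine toPf (Ca.le h ?_)
  have h1 : c ≤ (P + 2) ^ c := by
    calc c ≤ 2 ^ c := Nat.lt_two_pow_self.le
      _ ≤ (P + 2) ^ c := Nat.pow_le_pow_left (by omega) c
  calc c * ((P + 2) ^ (2 * e + 8)) ^ 6 ≤ (P + 2) ^ c * ((P + 2) ^ (2 * e + 8)) ^ 6 :=
        Nat.mul_le_mul_right _ h1
    _ = (P + 2) ^ (c + (2 * e + 8) * 6) := by rw [← pow_mul, ← pow_add]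

end Pool.Agent.Y511.KL
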