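import Pool.Agent.Y511.KL.Base

/-!
# Polynomial-size Frege proofs of the pigeonhole principle from counting formulas
-/

set_option autoImplicit false

namespace Pool.Agent.Y511.KL

open Pool.Agent.H555R2.PF Pool.Agent.H555R2.PF.Fm Pool.Agent.TH677.EF Pool.Agent.Y528.KL

variable {F : List Rule}

/-- falsum -/
def fls : Fm := neg (imp (var 0) (var 0))

/-- pigeon `i` sits in hole `j` (false if there is no pigeon `i`) -/
def Rr (P j i : ℕ) : Fm := if i < P then var (Nat.pair i j) else fls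

/-- pigeon `i` sits in a hole `< j` -/
def XX (P : ℕ) : ℕ → ℕ → Fm
  | 0, _ => fls
  | j + 1, i => Fm.or (XX P j i) (Rr P j i)

/-- pigeon `i` sits in hole `j` and in no hole `< j` -/
def YY (P j i : ℕ) : Fm := Fm.and (neg (XX P j i)) (Rr P j i)

/-- the hypothesis -/
def UU (P H : ℕ) : Fm := Fm.and (phpT P H) (phpI P H)

theorem fls_size : fls.size = 4 := rfl

theorem Rr_size (P j i : ℕ) : (Rr P j i).size ≤ 4 := by
  unfold Rr; split_ifs
  · simp [size]
  · simp [fls_size]

theorem XX_size (P j i : ℕ) : (XX P j i).size ≤ 4 + 5 * j := by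
  induction j with
  | zero => simp [XX, fls_size]
  | succ j ih =>
    have := Rr_size P j i
    simp only [XX, size]; omega

theorem YY_size (P j i : ℕ) : (YY P j i).size ≤ 10 + 5 * j := by
  have := Rr_size P j i
  have := XX_size P j i
  simp only [YY, size]; omega

/-- Everything that is needed to prove the pigeonhole principle. -/
structure Ctx (F : List Rule) (P H L M : ℕ) (cnt : ℕ → Fm) : Prop where
  HP : H < P
  PW : P < 2 ^ L
  WP : 2 ^ L ≤ 2 * P
  U : (UU P H).size + 5 * P + 30 ≤ M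
  sem : ∀ (v : ℕ → Prop) (r : ℕ), r < 2 ^ L →
    ((cnt r).eval v ↔ {i : ℕ | i < 2 ^ L ∧ v i}.ncard % 2 ^ L = r)
  vars : ∀ r < 2 ^ L, ∀ x ∈ (cnt r).vars, x < 2 ^ L
  csz : ∀ r < 2 ^ L, (P + 5) * ((cnt r).size * (5 * P + 20) + 1) ≤ M
  excl : ∀ r s : ℕ, r < 2 ^ L → s < 2 ^ L → r ≠ s →
    Ca F ∅ [neg (Fm.and ((cnt r).subst (XX P H)) ((cnt s).subst (XX P H)))] M
  add : ∀ j < H, ∀ r s : ℕ, r < 2 ^ L → s < 2 ^ L →
    Ca F ∅ [imp ((cnt r).subst (XX P j)) (imp ((cnt s).subst (YY P j))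
      ((cnt ((r + s) % 2 ^ L)).subst (XX P (j + 1))))] M

namespace Ctx

variable {P H L M : ℕ} {cnt : ℕ → Fm}

theorem M1 (h : Ctx F P H L M cnt) : 1 ≤ M := by have := h.U; omega

theorem MW (h : Ctx F P H L M cnt) : 2 ^ L ≤ M := by have := h.U; have := h.WP; omega

theorem substsize (h : Ctx F P H L M cnt) {σ : ℕ → Fm} (hσ : ∀ n, (σ n).size ≤ 5 * P + 20) {r : ℕ}
    (hr : r < 2 ^ L) : (P + 5) * (((cnt r).subst σ).size + 1) ≤ M := by
  have h1 := h.csz r hr
  have h2 : ((cnt r).subst σ).size ≤ (cnt r).size * (5 * P + 20) :=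
    size_subst_le (by omega) fun n _ => hσ n
  exact (Nat.mul_le_mul_left _ (by omega)).trans h1

theorem substsize' (h : Ctx F P H L M cnt) {σ : ℕ → Fm} (hσ : ∀ n, (σ n).size ≤ 5 * P + 20)
    {r : ℕ} (hr : r < 2 ^ L) : 5 * ((cnt r).subst σ).size + 5 ≤ M := by
  have h1 := h.substsize hσ hr
  nlinarith [Nat.zero_le (P * (((cnt r).subst σ).size + 1))]

theorem XXs (h : Ctx F P H L M cnt) {j : ℕ} (hj : j ≤ H) (n : ℕ) :
    (XX P j n).size ≤ 5 * P + 20 := by
  have := XX_size P j n; have := h.HP; omega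

theorem YYs (h : Ctx F P H L M cnt) {j : ℕ} (hj : j ≤ H) (n : ℕ) :
    (YY P j n).size ≤ 5 * P + 20 := by
  have := YY_size P j n; have := h.HP; omega

theorem cntsize (h : Ctx F P H L M cnt) {r : ℕ} (hr : r < 2 ^ L) : (cnt r).size ≤ M := by
  have := h.csz r hr
  nlinarith [Nat.zero_le ((cnt r).size * P), Nat.zero_le ((cnt r).size * P * P), Nat.zero_le P]

end Ctx

theorem UT (hF : IsFrege F) : ∃ c : ℕ, ∀ (P H L M : ℕ) (cnt : ℕ → Fm), Ctx F P H L M cnt →
    ∀ a < P, Ca F ∅ [imp (UU P H) (OR ((List.range H).map fun b => var (Nat.pair a b)))]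
      (c * M * M) := by
  obtain ⟨c₁, h₁⟩ := and_mem hF
  obtain ⟨c₂, h₂⟩ := sch1 hF (imp (var 0) (var 2)) (imp (Fm.and (var 0) (var 1)) (var 2)) (by
    intro v h; simp [eval] at h ⊢; tauto)
  refine ⟨c₁ + c₂, fun P H L M cnt h a ha => ?_⟩
  have hU := h.U
  have hM := h.M1
  simp only [UU, size] at hU
  have hm : OR ((List.range H).map fun b => var (Nat.pair a b)) ∈
      (List.range P).map fun a => OR ((List.range H).map fun b => var (Nat.pair a b)) :=
    List.mem_map.2 ⟨a, List.mem_range.2 ha, rfl⟩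
  have h3 : ((List.range P).map fun a => OR ((List.range H).map fun b =>
    var (Nat.pair a b))).length ≤ M := (length_le_AND _).trans (by rw [← phpT]; omega)
  have e1 : Ca F ∅ [imp (phpT P H) (OR ((List.range H).map fun b => var (Nat.pair a b)))]
      (c₁ * M * M) := Ca.le (h₁ ((List.range P).map fun a => OR ((List.range H).map fun b =>
        var (Nat.pair a b))) M (by rw [← phpT]; omega) _ hm) (Nat.mul_le_mul_left _ h3)
  have hs := mem_size_AND hm
  rw [← phpT] at hs
  have e2 := h₂ [phpT P H, phpI P H, OR ((List.range H).map fun b => var (Nat.pair a b))] M _ hM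
    (by
      intro X hX; simp only [List.mem_cons, List.not_mem_nil, or_false] at hX
      rcases hX with rfl | rfl | rfl
      exacts [by omega, by omega, by omega]) (by
      simpa [subst, asg] using e1)
  refine Ca.le (by simpa [subst, asg, UU] using e2) ?_
  have h5 : c₂ * M ≤ c₂ * M * M := Nat.le_mul_of_pos_right _ hM
  nlinarith

theorem UI (hF : IsFrege F) : ∃ c : ℕ, ∀ (P H L M : ℕ) (cnt : ℕ → Fm), Ctx F P H L M cnt →
    ∀ a < P, ∀ a' < a, ∀ b < H,
      Ca F ∅ [imp (UU P H) (neg (Fm.and (var (Nat.pair a b)) (var (Nat.pair a' b))))]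
      (c * M * M) := by
  obtain ⟨c₁, h₁⟩ := and_mem hF
  obtain ⟨c₂, h₂⟩ := sch1 hF (imp (var 1) (var 2)) (imp (Fm.and (var 0) (var 1)) (var 2)) (by
    intro v h; simp [eval] at h ⊢; tauto)
  refine ⟨c₁ + c₂, fun P H L M cnt h a ha a' ha' b hb => ?_⟩
  have hU := h.U
  have hM := h.M1
  simp only [UU, size] at hU
  have hm : neg (Fm.and (var (Nat.pair a b)) (var (Nat.pair a' b))) ∈
      ((List.range P).flatMap fun a => (List.range a).flatMap fun a' =>
      (List.range H).map fun b => neg (Fm.and (var (Nat.pair a b)) (var (Nat.pair a' b)))) := by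
    refine List.mem_flatMap.2 ⟨a, List.mem_range.2 ha, List.mem_flatMap.2 ⟨a',
      List.mem_range.2 ha', List.mem_map.2 ⟨b, List.mem_range.2 hb, rfl⟩⟩⟩
  have h3 : ((List.range P).flatMap fun a => (List.range a).flatMap fun a' =>
      (List.range H).map fun b => neg (Fm.and (var (Nat.pair a b))
        (var (Nat.pair a' b)))).length ≤ M := (length_le_AND _).trans (by rw [← phpI]; omega)
  have e1 : Ca F ∅ [imp (phpI P H) (neg (Fm.and (var (Nat.pair a b)) (var (Nat.pair a' b))))]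
      (c₁ * M * M) := Ca.le (h₁ _ M (by rw [← phpI]; omega) _ hm) (Nat.mul_le_mul_left _ h3)
  have hs := mem_size_AND hm
  rw [← phpI] at hs
  have e2 := h₂ [phpT P H, phpI P H,
    neg (Fm.and (var (Nat.pair a b)) (var (Nat.pair a' b)))] M _ hM
    (by
      intro X hX; simp only [List.mem_cons, List.not_mem_nil, or_false] at hX
      rcases hX with rfl | rfl | rfl
      exacts [by omega, by omega, by omega]) (by
      simpa [subst, asg] using e1)
  refine Ca.le (by simpa [subst, asg, UU] using e2) ?_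
  have h5 : c₂ * M ≤ c₂ * M * M := Nat.le_mul_of_pos_right _ hM
  nlinarith

/-- all pigeons but `i0` are not new in hole `j` -/
theorem litY (hF : IsFrege F) : ∃ c : ℕ, ∀ (P H L M : ℕ) (cnt : ℕ → Fm), Ctx F P H L M cnt →
    ∀ j < H, ∀ i0 < P, ∀ x : Fm, x.size ≤ M → ∀ i ≠ i0,
      Ca F ∅ [imp (Fm.and (Fm.and (UU P H) (var (Nat.pair i0 j))) x) (neg (YY P j i))]
      (c * M * M) := by
  obtain ⟨c₀, h₀⟩ := UI hF
  obtain ⟨c₁, h₁⟩ := sch0 hF (imp (Fm.and (Fm.and (var 0) (var 1)) (var 2))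
    (neg (Fm.and (var 3) (neg (imp (var 4) (var 4)))))) (by
    intro v _; simp [eval])
  obtain ⟨c₂, h₂⟩ := sch1 hF (imp (var 0) (neg (Fm.and (var 1) (var 4))))
    (imp (Fm.and (Fm.and (var 0) (var 1)) (var 2)) (neg (Fm.and (var 3) (var 4)))) (by
    intro v h; simp [eval] at h ⊢; tauto)
  obtain ⟨c₃, h₃⟩ := sch1 hF (imp (var 0) (neg (Fm.and (var 4) (var 1))))
    (imp (Fm.and (Fm.and (var 0) (var 1)) (var 2)) (neg (Fm.and (var 3) (var 4)))) (by
    intro v h; simp [eval] at h ⊢; tauto)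
  refine ⟨c₀ + c₁ + c₂ + c₃, fun P H L M cnt h j hj i0 hi0 x hx i hi => ?_⟩
  have hU := h.U
  have hM := h.M1
  have hX := XX_size P j i
  have hHP := h.HP
  have hMM : M ≤ M * M := Nat.le_mul_of_pos_right _ hM
  have hvar : ∀ n, (var n).size ≤ M := fun n => by simpa [size] using hM
  by_cases hiP : i < P
  · rcases lt_or_gt_of_ne hi with h4 | h4
    · have e := h₂ [UU P H, var (Nat.pair i0 j), x, neg (XX P j i), var (Nat.pair i j)] M _ hM
        (by
          intro X hX; simp only [List.mem_cons, List.not_mem_nil, or_false] at hX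
          rcases hX with rfl | rfl | rfl | rfl | rfl
          exacts [by omega, hvar _, hx, by simp only [size]; omega, hvar _])
        (by simpa [subst, asg] using h₀ P H L M cnt h i0 hi0 i h4 j hj)
      refine Ca.le (by simpa [subst, asg, YY, Rr, hiP] using e) ?_
      nlinarith
    · have e := h₃ [UU P H, var (Nat.pair i0 j), x, neg (XX P j i), var (Nat.pair i j)] M _ hM
        (by
          intro X hX; simp only [List.mem_cons, List.not_mem_nil, or_false] at hX
          rcases hX with rfl | rfl | rfl | rfl | rfl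
          exacts [by omega, hvar _, hx, by simp only [size]; omega, hvar _])
        (by simpa [subst, asg] using h₀ P H L M cnt h i hiP i0 h4 j hj)
      refine Ca.le (by simpa [subst, asg, YY, Rr, hiP] using e) ?_
      nlinarith
  · have e := h₁ [UU P H, var (Nat.pair i0 j), x, neg (XX P j i), var 0] M hM
        (by
          intro X hX; simp only [List.mem_cons, List.not_mem_nil, or_false] at hX
          rcases hX with rfl | rfl | rfl | rfl | rfl
          exacts [by omega, hvar _, hx, by simp only [size]; omega, hvar _])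
    refine Ca.le (by simpa [subst, asg, YY, Rr, hiP, fls] using e) ?_
    nlinarith

theorem ncard_none (W : ℕ) : {i : ℕ | i < W ∧ (false = true)}.ncard = 0 := by simp

theorem ncard_one {W i0 : ℕ} (h : i0 < W) :
    {i : ℕ | i < W ∧ decide (i = i0) = true}.ncard = 1 := by
  have : {i : ℕ | i < W ∧ decide (i = i0) = true} = {i0} := by
    ext i; simp only [Set.mem_ofPred_eq, decide_eq_true_eq, Set.mem_singleton_iff]
    constructor
    · exact fun h => h.2
    · rintro rfl; exact ⟨h, rfl⟩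
  rw [this, Set.ncard_singleton]

theorem ncard_lt {W P : ℕ} (h : P ≤ W) :
    {i : ℕ | i < W ∧ decide (i < P) = true}.ncard = P := by
  have : {i : ℕ | i < W ∧ decide (i < P) = true} = ((Finset.range P : Finset ℕ) : Set ℕ) := by
    ext i; simp only [Set.mem_ofPred_eq, decide_eq_true_eq, Finset.coe_range, Set.mem_Iio]
    omega
  rw [this, Set.ncard_coe_finset, Finset.card_range]

/-- the case of an occupied hole -/
theorem occ (hF : IsFrege F) : ∃ c : ℕ, ∀ (P H L M : ℕ) (cnt : ℕ → Fm), Ctx F P H L M cnt →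
    ∀ j < H, ∀ i0 < P,
      Ca F ∅ [imp (UU P H) (imp (var (Nat.pair i0 j))
        (Fm.or ((cnt 0).subst (YY P j)) ((cnt 1).subst (YY P j))))] (c * M * M * M) := by
  obtain ⟨c₀, h₀⟩ := litY hF
  obtain ⟨c₁, h₁⟩ := sch0 hF (imp (Fm.and (Fm.and (var 0) (var 1)) (var 2))
    (neg (Fm.and (neg (var 2)) (var 1)))) (by
    intro v _; simp [eval]; tauto)
  obtain ⟨c₂, h₂⟩ := sch0 hF (imp (Fm.and (Fm.and (var 0) (var 1)) (neg (var 2)))
    (Fm.and (neg (var 2)) (var 1))) (by
    intro v _; simp [eval]; tauto)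
  obtain ⟨c₃, h₃⟩ := evW hF
  obtain ⟨c₄, h₄⟩ := sch2 hF (imp (Fm.and (Fm.and (var 0) (var 1)) (var 2)) (var 3))
    (imp (Fm.and (Fm.and (var 0) (var 1)) (neg (var 2))) (var 4))
    (imp (var 0) (imp (var 1) (Fm.or (var 3) (var 4)))) (by
    intro v h; simp [eval] at h ⊢; tauto)
  refine ⟨2 * (c₀ + c₁ + c₂ + c₃) + c₄, fun P H L M cnt h j hj i0 hi0 => ?_⟩
  have hU := h.U
  have hM := h.M1
  have hHP := h.HP
  have hPW := h.PW
  have hMM : M ≤ M * M := Nat.le_mul_of_pos_right _ hM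
  have hMMM : M * M ≤ M * M * M := Nat.le_mul_of_pos_right _ hM
  have hvar : ∀ n, (var n).size ≤ M := fun n => by simpa [size] using hM
  have hX := XX_size P j i0
  have hW : 2 ^ L ≤ M := h.MW
  have h0W : 0 < 2 ^ L := by omega
  have h1W : 1 < 2 ^ L := by omega
  have key : ∀ (m : ℕ), m ≤ (c₀ + c₁ + c₂) * M * M → 2 ^ L * m + c₃ * M * M ≤
      (c₀ + c₁ + c₂ + c₃) * M * M * M := by
    intro m hm
    have t1 : 2 ^ L * m ≤ M * ((c₀ + c₁ + c₂) * M * M) := Nat.mul_le_mul hW hm
    have t2 : c₃ * M * M ≤ c₃ * M * M * M := Nat.le_mul_of_pos_right _ hM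
    nlinarith
  -- the pigeon `i0` sits in a hole `< j`
  have a1 : ∀ n < 2 ^ L, Ca F ∅ [imp (Fm.and (Fm.and (UU P H) (var (Nat.pair i0 j))) (XX P j i0))
      (sg false (YY P j n))] ((c₀ + c₁ + c₂) * M * M) := by
    intro n hn
    by_cases hn0 : n = i0
    · subst hn0
      have e := h₁ [UU P H, var (Nat.pair n j), XX P j n] M hM (by
        intro X hX; simp only [List.mem_cons, List.not_mem_nil, or_false] at hX
        rcases hX with rfl | rfl | rfl
        exacts [by omega, hvar _, by omega])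
      refine Ca.le (by simpa [subst, asg, YY, Rr, hi0, sg] using e) ?_
      nlinarith [Nat.zero_le (c₀ * M * M), Nat.zero_le (c₂ * M * M)]
    · refine Ca.le (h₀ P H L M cnt h j hj i0 hi0 (XX P j i0) (by omega) n hn0) ?_
      nlinarith [Nat.zero_le (c₁ * M * M), Nat.zero_le (c₂ * M * M)]
  have e0 := h₃ (fun _ => false) (YY P j)
    (Fm.and (Fm.and (UU P H) (var (Nat.pair i0 j))) (XX P j i0)) M (2 ^ L) _
    (by simp only [size]; omega) (cnt 0)
    (by have := h.substsize' (h.YYs hj.le) h0W; omega) (h.cntsize h0W) (h.vars 0 h0W) a1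
    (by rw [h.sem _ 0 h0W, ncard_none]; simp)
  -- the pigeon `i0` sits in no hole `< j`
  have a2 : ∀ n < 2 ^ L, Ca F ∅ [imp (Fm.and (Fm.and (UU P H) (var (Nat.pair i0 j)))
      (neg (XX P j i0))) (sg (decide (n = i0)) (YY P j n))] ((c₀ + c₁ + c₂) * M * M) := by
    intro n hn
    by_cases hn0 : n = i0
    · subst hn0
      have e := h₂ [UU P H, var (Nat.pair n j), XX P j n] M hM (by
        intro X hX; simp only [List.mem_cons, List.not_mem_nil, or_false] at hX
        rcases hX with rfl | rfl | rfl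
        exacts [by omega, hvar _, by omega])
      refine Ca.le (by simpa [subst, asg, YY, Rr, hi0, sg] using e) ?_
      nlinarith [Nat.zero_le (c₀ * M * M), Nat.zero_le (c₁ * M * M)]
    · have e := h₀ P H L M cnt h j hj i0 hi0 (neg (XX P j i0)) (by simp only [size]; omega) n hn0
      refine Ca.le (by simpa [sg, hn0] using e) ?_
      nlinarith [Nat.zero_le (c₁ * M * M), Nat.zero_le (c₂ * M * M)]
  have e1 := h₃ (fun n => decide (n = i0)) (YY P j)
    (Fm.and (Fm.and (UU P H) (var (Nat.pair i0 j))) (neg (XX P j i0))) M (2 ^ L) _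
    (by simp only [size]; omega) (cnt 1)
    (by have := h.substsize' (h.YYs hj.le) h1W; omega) (h.cntsize h1W) (h.vars 1 h1W) a2
    (by rw [h.sem _ 1 h1W, ncard_one (hi0.trans hPW), Nat.mod_eq_of_lt h1W])
  have e := h₄ [UU P H, var (Nat.pair i0 j), XX P j i0, (cnt 0).subst (YY P j),
    (cnt 1).subst (YY P j)] M _ _ hM (by
        intro X hX; simp only [List.mem_cons, List.not_mem_nil, or_false] at hX
        rcases hX with rfl | rfl | rfl | rfl | rfl
        · omega
        · exact hvar _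
        · omega
        · have := h.substsize' (h.YYs hj.le) h0W; omega
        · have := h.substsize' (h.YYs hj.le) h1W; omega)
    (by simpa [subst, asg] using e0) (by simpa [subst, asg] using e1)
  refine Ca.le (by simpa [subst, asg] using e) ?_
  have k1 := key _ le_rfl
  have k2 : c₄ * M ≤ c₄ * M * M * M := by
    calc c₄ * M ≤ c₄ * M * M := Nat.le_mul_of_pos_right _ hM
      _ ≤ c₄ * M * M * M := Nat.le_mul_of_pos_right _ hM
  calc _ ≤ (c₀ + c₁ + c₂ + c₃) * M * M * M + (c₀ + c₁ + c₂ + c₃) * M * M * M + c₄ * M * M * M := by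
        omega
    _ = _ := by ring

/-- in every hole at most one pigeon is new -/
theorem new (hF : IsFrege F) : ∃ c : ℕ, ∀ (P H L M : ℕ) (cnt : ℕ → Fm), Ctx F P H L M cnt →
    ∀ j < H, Ca F ∅ [imp (UU P H)
        (Fm.or ((cnt 0).subst (YY P j)) ((cnt 1).subst (YY P j)))] (c * M ^ 4) := by
  obtain ⟨c₀, h₀⟩ := occ hF
  obtain ⟨c₁, h₁⟩ := or_neg hF
  obtain ⟨c₂, h₂⟩ := or_elim hF
  obtain ⟨c₃, h₃⟩ := evW hF
  obtain ⟨c₄, h₄⟩ := sch1 hF (imp (var 1) (neg (var 2)))
    (imp (Fm.and (var 0) (var 1)) (neg (Fm.and (var 3) (var 2)))) (by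
    intro v h; simp [eval] at h ⊢; tauto)
  obtain ⟨c₅, h₅⟩ := sch0 hF (imp (Fm.and (var 0) (var 1))
    (neg (Fm.and (var 2) (neg (imp (var 3) (var 3)))))) (by
    intro v _; simp [eval])
  obtain ⟨c₆, h₆⟩ := sch2 hF (imp (var 0) (imp (var 1) (Fm.or (var 2) (var 3))))
    (imp (Fm.and (var 0) (neg (var 1))) (var 2))
    (imp (var 0) (Fm.or (var 2) (var 3))) (by
    intro v h; simp [eval] at h ⊢; tauto)
  refine ⟨c₀ + c₁ + 2 * c₂ + c₃ + c₄ + c₅ + c₆, fun P H L M cnt h j hj => ?_⟩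
  have hU := h.U
  have hM := h.M1
  have hHP := h.HP
  have hPW := h.PW
  have hMM : M ≤ M * M := Nat.le_mul_of_pos_right _ hM
  have hvar : ∀ n, (var n).size ≤ M := fun n => by simpa [size] using hM
  have hW : 2 ^ L ≤ M := h.MW
  have h0W : 0 < 2 ^ L := by omega
  have h1W : 1 < 2 ^ L := by omega
  set l := (List.range P).map fun i => var (Nat.pair i j) with hl
  have hlen : l.length = P := by simp [hl]
  have hOR : (OR l).size ≤ 4 + 2 * P := by
    have := OR_size l 1 (by
      intro A hA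
      obtain ⟨i, _, rfl⟩ := List.mem_map.1 hA
      simp [size])
    rw [hlen] at this; omega
  have hg0 := h.substsize' (h.YYs hj.le) h0W
  have hg1 := h.substsize' (h.YYs hj.le) h1W
  -- some pigeon
  have e0 := h₂ (UU P H) (Fm.or ((cnt 0).subst (YY P j)) ((cnt 1).subst (YY P j))) l M _
    (by omega) (by simp only [size]; omega) (by omega) (by
      intro A hA
      obtain ⟨i, hi, rfl⟩ := List.mem_map.1 hA
      exact h₀ P H L M cnt h j hj i (List.mem_range.1 hi))
  -- no pigeon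
  have a1 : ∀ n < 2 ^ L, Ca F ∅ [imp (Fm.and (UU P H) (neg (OR l)))
      (sg false (YY P j n))] ((c₁ + c₄ + c₅) * M * M) := by
    intro n hn
    have hX := XX_size P j n
    by_cases hnP : n < P
    · have hm : var (Nat.pair n j) ∈ l := List.mem_map.2 ⟨n, List.mem_range.2 hnP, rfl⟩
      have e := h₄ [UU P H, neg (OR l), var (Nat.pair n j), neg (XX P j n)] M _ hM (by
        intro X hX; simp only [List.mem_cons, List.not_mem_nil, or_false] at hX
        rcases hX with rfl | rfl | rfl | rfl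
        · omega
        · simp only [size]; omega
        · exact hvar _
        · simp only [size]; omega)
        (by simpa [subst, asg] using h₁ l M (by omega) _ hm)
      refine Ca.le (by simpa [subst, asg, YY, Rr, hnP, sg] using e) ?_
      rw [hlen]
      have : c₁ * M * P ≤ c₁ * M * M := Nat.mul_le_mul_left _ (by omega)
      nlinarith [Nat.zero_le (c₅ * M * M)]
    · have e := h₅ [UU P H, neg (OR l), neg (XX P j n), var 0] M hM (by
        intro X hX; simp only [List.mem_cons, List.not_mem_nil, or_false] at hX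
        rcases hX with rfl | rfl | rfl | rfl
        · omega
        · simp only [size]; omega
        · simp only [size]; omega
        · exact hvar _)
      refine Ca.le (by simpa [subst, asg, YY, Rr, hnP, sg, fls] using e) ?_
      nlinarith [Nat.zero_le (c₄ * M * M), Nat.zero_le (c₁ * M * M)]
  have e1 := h₃ (fun _ => false) (YY P j) (Fm.and (UU P H) (neg (OR l))) M (2 ^ L) _
    (by simp only [size]; omega) (cnt 0) (by omega) (h.cntsize h0W) (h.vars 0 h0W) a1
    (by rw [h.sem _ 0 h0W, ncard_none]; simp)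
  have e := h₆ [UU P H, OR l, (cnt 0).subst (YY P j), (cnt 1).subst (YY P j)] M _ _ hM (by
        intro X hX; simp only [List.mem_cons, List.not_mem_nil, or_false] at hX
        rcases hX with rfl | rfl | rfl | rfl
        · omega
        · omega
        · omega
        · omega)
    (by simpa [subst, asg] using e0) (by simpa [subst, asg] using e1)
  refine Ca.le (by simpa [subst, asg] using e) ?_
  rw [hlen]
  have t1 : P * (c₀ * M * M * M) ≤ c₀ * M ^ 4 := by
    calc P * (c₀ * M * M * M) ≤ M * (c₀ * M * M * M) := Nat.mul_le_mul_right _ (by omega)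
      _ = c₀ * M ^ 4 := by ring
  have t2 : c₂ * M * (P + 1) ≤ 2 * c₂ * M ^ 4 := by
    calc c₂ * M * (P + 1) ≤ c₂ * M * (2 * M) := Nat.mul_le_mul_left _ (by omega)
      _ = 2 * c₂ * M ^ 2 := by ring
      _ ≤ 2 * c₂ * M ^ 4 := Nat.mul_le_mul_left _ (Nat.pow_le_pow_right hM (by norm_num))
  have t3 : 2 ^ L * ((c₁ + c₄ + c₅) * M * M) ≤ (c₁ + c₄ + c₅) * M ^ 4 := by
    calc 2 ^ L * ((c₁ + c₄ + c₅) * M * M) ≤ M * ((c₁ + c₄ + c₅) * M * M) :=
          Nat.mul_le_mul_right _ hW
      _ = (c₁ + c₄ + c₅) * M ^ 3 := by ring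
      _ ≤ (c₁ + c₄ + c₅) * M ^ 4 := Nat.mul_le_mul_left _ (Nat.pow_le_pow_right hM (by norm_num))
  have t4 : c₃ * M * M ≤ c₃ * M ^ 4 := by
    calc c₃ * M * M = c₃ * M ^ 2 := by ring
      _ ≤ c₃ * M ^ 4 := Nat.mul_le_mul_left _ (Nat.pow_le_pow_right hM (by norm_num))
  have t5 : c₆ * M ≤ c₆ * M ^ 4 := by
    calc c₆ * M = c₆ * M ^ 1 := by ring
      _ ≤ c₆ * M ^ 4 := Nat.mul_le_mul_left _ (Nat.pow_le_pow_right hM (by norm_num))
  calc _ ≤ (c₀ * M ^ 4 + 2 * c₂ * M ^ 4) + ((c₁ + c₄ + c₅) * M ^ 4 + c₃ * M ^ 4) + c₆ * M ^ 4 := by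
        omega
    _ = _ := by ring

/-- at most `j` holes `< j` are occupied -/
def ZZ (cnt : ℕ → Fm) (P j : ℕ) : Fm :=
  OR ((List.range (j + 1)).map fun s => (cnt s).subst (XX P j))

theorem ZZ_size {P H L M : ℕ} {cnt : ℕ → Fm} (h : Ctx F P H L M cnt) {j : ℕ} (hj : j ≤ H) :
    (ZZ cnt P j).size ≤ M := by
  have hHP := h.HP
  have hPW := h.PW
  set B := M / (P + 5) - 1 with hB
  have h0 : 1 ≤ M / (P + 5) := by
    have := h.substsize (h.XXs hj) (r := 0) (by omega)
    have h1 : ((cnt 0).subst (XX P j)).size + 1 ≤ M / (P + 5) :=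
      (Nat.le_div_iff_mul_le (by omega)).2 (by rw [mul_comm]; exact this)
    omega
  have h1 := OR_size ((List.range (j + 1)).map fun s => (cnt s).subst (XX P j)) B (by
    intro A hA
    obtain ⟨s, hs, rfl⟩ := List.mem_map.1 hA
    have hs := List.mem_range.1 hs
    have := h.substsize (h.XXs hj) (r := s) (by omega)
    have h1 : ((cnt s).subst (XX P j)).size + 1 ≤ M / (P + 5) :=
      (Nat.le_div_iff_mul_le (by omega)).2 (by rw [mul_comm]; exact this)
    omega)
  have h2 : (P + 5) * (B + 1) ≤ M := by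
    have : B + 1 = M / (P + 5) := by omega
    rw [this]
    exact Nat.mul_div_le M (P + 5)
  simp only [List.length_map, List.length_range] at h1
  have h3 : (j + 1) * (B + 1) ≤ P * (B + 1) := Nat.mul_le_mul_right _ (by omega)
  unfold ZZ
  nlinarith

/-- one more hole -/
theorem stepZ (hF : IsFrege F) : ∃ c : ℕ, ∀ (P H L M : ℕ) (cnt : ℕ → Fm), Ctx F P H L M cnt →
    ∀ j < H, Ca F ∅ [imp (UU P H) (imp (ZZ cnt P j) (ZZ cnt P (j + 1)))] (c * M ^ 5) := by
  obtain ⟨c₀, h₀⟩ := new hF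
  obtain ⟨c₁, h₁⟩ := or_intro hF
  obtain ⟨c₂, h₂⟩ := or_elim hF
  obtain ⟨c₃, h₃⟩ := sch2 hF (imp (var 2) (var 3)) (imp (var 0) (imp (var 1) (var 2)))
    (imp (var 0) (imp (var 1) (var 3))) (by
    intro v h; simp [eval] at h ⊢; tauto)
  obtain ⟨c₄, h₄⟩ := sch2 hF (imp (var 0) (imp (var 1) (var 3)))
    (imp (var 0) (imp (var 2) (var 3))) (imp (var 0) (imp (Fm.or (var 1) (var 2)) (var 3))) (by
    intro v h; simp [eval] at h ⊢; tauto)
  obtain ⟨c₅, h₅⟩ := sch2 hF (imp (var 0) (var 1)) (imp (var 2) (imp (var 1) (var 3)))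
    (imp (var 0) (imp (var 2) (var 3))) (by
    intro v h; simp [eval] at h ⊢; tauto)
  refine ⟨c₀ + (2 * c₁ + 2 * c₃ + 2 + c₄ + c₅) + 2 * c₂, fun P H L M cnt h j hj => ?_⟩
  have hU := h.U
  have hM := h.M1
  have hHP := h.HP
  have hPW := h.PW
  have h0W : 0 < 2 ^ L := by omega
  have h1W : 1 < 2 ^ L := by omega
  have hZ := ZZ_size h (j := j) hj.le
  have hZ' := ZZ_size h (j := j + 1) hj
  have hg0 := h.substsize' (h.YYs hj.le) h0W
  have hg1 := h.substsize' (h.YYs hj.le) h1W
  have eG := h₀ P H L M cnt h j hj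
  have key : ∀ s < j + 1, Ca F ∅ [imp (UU P H) (imp ((cnt s).subst (XX P j)) (ZZ cnt P (j + 1)))]
      ((c₀ + (2 * c₁ + 2 * c₃ + 2 + c₄ + c₅)) * M ^ 4) := by
    intro s hs
    have hsW : s < 2 ^ L := by omega
    have hsW' : s + 1 < 2 ^ L := by omega
    have hA := h.substsize' (h.XXs hj.le) hsW
    have hb0 := h.substsize' (σ := XX P (j + 1)) (h.XXs hj) hsW
    have hb1 := h.substsize' (σ := XX P (j + 1)) (h.XXs hj) hsW'
    have a0 := h.add j hj s 0 hsW h0W
    have a1 := h.add j hj s 1 hsW h1W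
    rw [show (s + 0) % 2 ^ L = s from Nat.mod_eq_of_lt hsW] at a0
    rw [Nat.mod_eq_of_lt hsW'] at a1
    have hlen : ((List.range (j + 1 + 1)).map fun s => (cnt s).subst (XX P (j + 1))).length ≤ M := by
      simp only [List.length_map, List.length_range]; omega
    have z0 : Ca F ∅ [imp ((cnt s).subst (XX P (j + 1))) (ZZ cnt P (j + 1))] (c₁ * M * M) :=
      Ca.le (h₁ ((List.range (j + 1 + 1)).map fun s => (cnt s).subst (XX P (j + 1))) M hZ' _
        (List.mem_map.2 ⟨s, List.mem_range.2 (by omega), rfl⟩)) (Nat.mul_le_mul_left _ hlen)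
    have z1 : Ca F ∅ [imp ((cnt (s + 1)).subst (XX P (j + 1))) (ZZ cnt P (j + 1))] (c₁ * M * M) :=
      Ca.le (h₁ ((List.range (j + 1 + 1)).map fun s => (cnt s).subst (XX P (j + 1))) M hZ' _
        (List.mem_map.2 ⟨s + 1, List.mem_range.2 (by omega), rfl⟩)) (Nat.mul_le_mul_left _ hlen)
    have b0 := h₃ [(cnt s).subst (XX P j), (cnt 0).subst (YY P j),
      (cnt s).subst (XX P (j + 1)), ZZ cnt P (j + 1)] M _ _ hM (by
        intro X hX; simp only [List.mem_cons, List.not_mem_nil, or_false] at hX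
        rcases hX with rfl | rfl | rfl | rfl
        exacts [by omega, by omega, by omega, by omega])
      (by simpa [subst, asg] using z0) (by simpa [subst, asg] using a0)
    have b1 := h₃ [(cnt s).subst (XX P j), (cnt 1).subst (YY P j),
      (cnt (s + 1)).subst (XX P (j + 1)), ZZ cnt P (j + 1)] M _ _ hM (by
        intro X hX; simp only [List.mem_cons, List.not_mem_nil, or_false] at hX
        rcases hX with rfl | rfl | rfl | rfl
        exacts [by omega, by omega, by omega, by omega])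
      (by simpa [subst, asg] using z1) (by simpa [subst, asg] using a1)
    have e := h₄ [(cnt s).subst (XX P j), (cnt 0).subst (YY P j), (cnt 1).subst (YY P j),
      ZZ cnt P (j + 1)] M _ _ hM (by
        intro X hX; simp only [List.mem_cons, List.not_mem_nil, or_false] at hX
        rcases hX with rfl | rfl | rfl | rfl
        exacts [by omega, by omega, by omega, by omega])
      (by simpa [subst, asg] using b0) (by simpa [subst, asg] using b1)
    have e' := h₅ [UU P H, Fm.or ((cnt 0).subst (YY P j)) ((cnt 1).subst (YY P j)),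
      (cnt s).subst (XX P j), ZZ cnt P (j + 1)] M _ _ hM (by
        intro X hX; simp only [List.mem_cons, List.not_mem_nil, or_false] at hX
        rcases hX with rfl | rfl | rfl | rfl
        exacts [by omega, by simp only [size]; omega, by omega, by omega])
      (by simpa [subst, asg] using eG) (by simpa [subst, asg] using e)
    refine Ca.le (by simpa [subst, asg] using e') ?_
    have t1 : M ≤ M ^ 4 := by
      calc M = M ^ 1 := by ring
        _ ≤ M ^ 4 := Nat.pow_le_pow_right hM (by norm_num)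
    have t2 : M * M ≤ M ^ 4 := by
      calc M * M = M ^ 2 := by ring
        _ ≤ M ^ 4 := Nat.pow_le_pow_right hM (by norm_num)
    have u1 : c₁ * M * M ≤ c₁ * M ^ 4 := by rw [mul_assoc]; exact Nat.mul_le_mul_left _ t2
    have u3 : c₃ * M ≤ c₃ * M ^ 4 := Nat.mul_le_mul_left _ t1
    have u4 : c₄ * M ≤ c₄ * M ^ 4 := Nat.mul_le_mul_left _ t1
    have u5 : c₅ * M ≤ c₅ * M ^ 4 := Nat.mul_le_mul_left _ t1
    calc _ ≤ c₀ * M ^ 4 + ((c₁ * M ^ 4 + M ^ 4 + c₃ * M ^ 4) + (c₁ * M ^ 4 + M ^ 4 + c₃ * M ^ 4) +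
          c₄ * M ^ 4) + c₅ * M ^ 4 := by omega
      _ = _ := by ring
  have e := h₂ (UU P H) (ZZ cnt P (j + 1)) ((List.range (j + 1)).map fun s =>
    (cnt s).subst (XX P j)) M _ (by omega) hZ' hZ (by
      intro A hA
      obtain ⟨s, hs, rfl⟩ := List.mem_map.1 hA
      exact key s (List.mem_range.1 hs))
  refine Ca.le e ?_
  simp only [List.length_map, List.length_range]
  have t1 : (j + 1) * ((c₀ + (2 * c₁ + 2 * c₃ + 2 + c₄ + c₅)) * M ^ 4) ≤
      (c₀ + (2 * c₁ + 2 * c₃ + 2 + c₄ + c₅)) * M ^ 5 := by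
    calc _ ≤ M * ((c₀ + (2 * c₁ + 2 * c₃ + 2 + c₄ + c₅)) * M ^ 4) :=
          Nat.mul_le_mul_right _ (by omega)
      _ = _ := by ring
  have t2 : c₂ * M * (j + 1 + 1) ≤ 2 * c₂ * M ^ 5 := by
    calc c₂ * M * (j + 1 + 1) ≤ c₂ * M * (2 * M) := Nat.mul_le_mul_left _ (by omega)
      _ = 2 * c₂ * M ^ 2 := by ring
      _ ≤ 2 * c₂ * M ^ 5 := Nat.mul_le_mul_left _ (Nat.pow_le_pow_right hM (by norm_num))
  calc _ ≤ (c₀ + (2 * c₁ + 2 * c₃ + 2 + c₄ + c₅)) * M ^ 5 + 2 * c₂ * M ^ 5 := by omega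
    _ = _ := by ring

/-- at most `j` of the holes `< j` are occupied, for all `j` -/
theorem allZ (hF : IsFrege F) : ∃ c : ℕ, ∀ (P H L M : ℕ) (cnt : ℕ → Fm), Ctx F P H L M cnt →
    ∀ j ≤ H, Ca F ∅ [imp (UU P H) (ZZ cnt P j)] (c * M ^ 5 * (j + 1)) := by
  obtain ⟨c₀, h₀⟩ := stepZ hF
  obtain ⟨c₁, h₁⟩ := or_intro hF
  obtain ⟨c₂, h₂⟩ := evW hF
  obtain ⟨c₃, h₃⟩ := sch0 hF (imp (var 0) (neg (neg (imp (var 1) (var 1))))) (by
    intro v _; simp [eval])
  obtain ⟨c₄, h₄⟩ := sch2 hF (imp (var 0) (var 1)) (imp (var 1) (var 2))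
    (imp (var 0) (var 2)) (by
    intro v h; simp [eval] at h ⊢; tauto)
  obtain ⟨c₅, h₅⟩ := sch2 hF (imp (var 0) (var 1)) (imp (var 0) (imp (var 1) (var 2)))
    (imp (var 0) (var 2)) (by
    intro v h; simp [eval] at h ⊢; tauto)
  refine ⟨c₀ + c₁ + c₂ + c₃ + c₄ + c₅, fun P H L M cnt h j => ?_⟩
  have hU := h.U
  have hM := h.M1
  have hHP := h.HP
  have hPW := h.PW
  have h0W : 0 < 2 ^ L := by omega
  have hvar : ∀ n, (var n).size ≤ M := fun n => by simpa [size] using hM
  have p1 : M ≤ M ^ 5 := by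
    calc M = M ^ 1 := by ring
      _ ≤ M ^ 5 := Nat.pow_le_pow_right hM (by norm_num)
  have p2 : M * M ≤ M ^ 5 := by
    calc M * M = M ^ 2 := by ring
      _ ≤ M ^ 5 := Nat.pow_le_pow_right hM (by norm_num)
  induction j with
  | zero =>
    intro _
    have hZ := ZZ_size h (j := 0) (Nat.zero_le _)
    have hs := h.substsize' (h.XXs (Nat.zero_le _)) h0W
    have f := h₃ [UU P H, var 0] M hM (by
      intro X hX; simp only [List.mem_cons, List.not_mem_nil, or_false] at hX
      rcases hX with rfl | rfl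
      exacts [by omega, hvar _])
    have e := h₂ (fun _ => false) (XX P 0) (UU P H) M (2 ^ L) (c₃ * M) (by omega) (cnt 0)
      (by omega) (h.cntsize h0W) (h.vars 0 h0W) (by
        intro n _
        simpa [subst, asg, XX, fls, sg] using f)
      (by rw [h.sem _ 0 h0W, ncard_none]; simp)
    have z : Ca F ∅ [imp ((cnt 0).subst (XX P 0)) (ZZ cnt P 0)] (c₁ * M * 1) :=
      h₁ ((List.range (0 + 1)).map fun s => (cnt s).subst (XX P 0)) M hZ _
        (List.mem_map.2 ⟨0, List.mem_range.2 (by omega), rfl⟩)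
    have e' := h₄ [UU P H, (cnt 0).subst (XX P 0), ZZ cnt P 0] M _ _ hM (by
        intro X hX; simp only [List.mem_cons, List.not_mem_nil, or_false] at hX
        rcases hX with rfl | rfl | rfl
        exacts [by omega, by omega, by omega])
      (by simpa [subst, asg] using e) (by simpa [subst, asg] using z)
    refine Ca.le (by simpa [subst, asg] using e') ?_
    have t1 : 2 ^ L * (c₃ * M) ≤ c₃ * M ^ 5 := by
      calc 2 ^ L * (c₃ * M) ≤ M * (c₃ * M) := Nat.mul_le_mul_right _ h.MW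
        _ = c₃ * (M * M) := by ring
        _ ≤ c₃ * M ^ 5 := Nat.mul_le_mul_left _ p2
    have t2 : c₂ * M * M ≤ c₂ * M ^ 5 := by rw [mul_assoc]; exact Nat.mul_le_mul_left _ p2
    have t3 : c₁ * M * 1 ≤ c₁ * M ^ 5 := by rw [mul_one]; exact Nat.mul_le_mul_left _ p1
    have t4 : c₄ * M ≤ c₄ * M ^ 5 := Nat.mul_le_mul_left _ p1
    calc _ ≤ (c₃ * M ^ 5 + c₂ * M ^ 5) + c₁ * M ^ 5 + c₄ * M ^ 5 := by omega
      _ ≤ (c₀ + c₁ + c₂ + c₃ + c₄ + c₅) * M ^ 5 * (0 + 1) := by
        nlinarith [Nat.zero_le (c₀ * M ^ 5), Nat.zero_le (c₅ * M ^ 5)]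
  | succ j ih =>
    intro hj
    have e := ih (by omega)
    have e1 := h₀ P H L M cnt h j hj
    have hZ := ZZ_size h (j := j) (by omega)
    have hZ' := ZZ_size h (j := j + 1) hj
    have e' := h₅ [UU P H, ZZ cnt P j, ZZ cnt P (j + 1)] M _ _ hM (by
        intro X hX; simp only [List.mem_cons, List.not_mem_nil, or_false] at hX
        rcases hX with rfl | rfl | rfl
        exacts [by omega, by omega, by omega])
      (by simpa [subst, asg] using e) (by simpa [subst, asg] using e1)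
    refine Ca.le (by simpa [subst, asg] using e') ?_
    have t4 : c₅ * M ≤ c₅ * M ^ 5 := Nat.mul_le_mul_left _ p1
    calc _ ≤ (c₀ + c₁ + c₂ + c₃ + c₄ + c₅) * M ^ 5 * (j + 1) + c₀ * M ^ 5 + c₅ * M ^ 5 := by omega
      _ ≤ (c₀ + c₁ + c₂ + c₃ + c₄ + c₅) * M ^ 5 * (j + 1 + 1) := by
        nlinarith [Nat.zero_le (c₁ * M ^ 5), Nat.zero_le (c₂ * M ^ 5), Nat.zero_le (c₃ * M ^ 5),
          Nat.zero_le (c₄ * M ^ 5)]

/-- a pigeon which sits in a hole `< j` -/
theorem inX (hF : IsFrege F) : ∃ c : ℕ, ∀ (P H L M : ℕ) (cnt : ℕ → Fm), Ctx F P H L M cnt →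
    ∀ i < P, ∀ j ≤ H, ∀ b < j, Ca F ∅ [imp (var (Nat.pair i b)) (XX P j i)] (c * M * (j + 1)) := by
  obtain ⟨c₀, h₀⟩ := sch0 hF (imp (var 0) (Fm.or (var 1) (var 0))) (by
    intro v _; simp [eval]; tauto)
  obtain ⟨c₁, h₁⟩ := sch1 hF (imp (var 0) (var 1)) (imp (var 0) (Fm.or (var 1) (var 2))) (by
    intro v h; simp [eval] at h ⊢; tauto)
  refine ⟨c₀ + c₁, fun P H L M cnt h i hi j => ?_⟩
  have hU := h.U
  have hM := h.M1
  have hHP := h.HP
  have hvar : ∀ n, (var n).size ≤ M := fun n => by simpa [size] using hM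
  induction j with
  | zero => intro _ b hb; omega
  | succ j ih =>
    intro hj b hb
    have hX := XX_size P j i
    rcases Nat.lt_or_ge b j with hbj | hbj
    · have e := h₁ [var (Nat.pair i b), XX P j i, var (Nat.pair i j)] M _ hM (by
          intro X hX; simp only [List.mem_cons, List.not_mem_nil, or_false] at hX
          rcases hX with rfl | rfl | rfl
          exacts [hvar _, by omega, hvar _])
        (by simpa [subst, asg] using ih (by omega) b hbj)
      refine Ca.le (by simpa [subst, asg, XX, Rr, hi] using e) ?_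
      nlinarith
    · have hb' : b = j := by omega
      subst hb'
      have e := h₀ [var (Nat.pair i b), XX P b i] M hM (by
          intro X hX; simp only [List.mem_cons, List.not_mem_nil, or_false] at hX
          rcases hX with rfl | rfl
          exacts [hvar _, by omega])
      refine Ca.le (by simpa [subst, asg, XX, Rr, hi] using e) ?_
      nlinarith [Nat.zero_le (c₀ * M * b), Nat.zero_le (c₁ * M * b), Nat.zero_le (c₁ * M)]

/-- the pigeons which do not exist -/
theorem outX (hF : IsFrege F) : ∃ c : ℕ, ∀ (P H L M : ℕ) (cnt : ℕ → Fm), Ctx F P H L M cnt →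
    ∀ i ≥ P, ∀ j ≤ H, Ca F ∅ [imp (UU P H) (neg (XX P j i))] (c * M * (j + 1)) := by
  obtain ⟨c₀, h₀⟩ := sch0 hF (imp (var 0) (neg (neg (imp (var 1) (var 1))))) (by
    intro v _; simp [eval])
  obtain ⟨c₁, h₁⟩ := sch1 hF (imp (var 0) (neg (var 1)))
    (imp (var 0) (neg (Fm.or (var 1) (neg (imp (var 2) (var 2)))))) (by
    intro v h; simp [eval] at h ⊢; tauto)
  refine ⟨c₀ + c₁, fun P H L M cnt h i hi j => ?_⟩
  have hU := h.U
  have hM := h.M1
  have hHP := h.HP
  have hvar : ∀ n, (var n).size ≤ M := fun n => by simpa [size] using hM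
  induction j with
  | zero =>
    intro _
    have e := h₀ [UU P H, var 0] M hM (by
      intro X hX; simp only [List.mem_cons, List.not_mem_nil, or_false] at hX
      rcases hX with rfl | rfl
      exacts [by omega, hvar _])
    refine Ca.le (by simpa [subst, asg, XX, fls] using e) ?_
    nlinarith [Nat.zero_le (c₁ * M)]
  | succ j ih =>
    intro hj
    have hX := XX_size P j i
    have e := h₁ [UU P H, XX P j i, var 0] M _ hM (by
          intro X hX; simp only [List.mem_cons, List.not_mem_nil, or_false] at hX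
          rcases hX with rfl | rfl | rfl
          exacts [by omega, by omega, hvar _])
        (by simpa [subst, asg] using ih (by omega))
    have hi' : ¬ i < P := by omega
    refine Ca.le (by simpa [subst, asg, XX, Rr, hi', fls] using e) ?_
    nlinarith

/-- the refutation -/
theorem refute (hF : IsFrege F) : ∃ c : ℕ, ∀ (P H L M : ℕ) (cnt : ℕ → Fm), Ctx F P H L M cnt →
    Ca F ∅ [neg (UU P H)] (c * M ^ 6) := by
  obtain ⟨c₀, h₀⟩ := allZ hF
  obtain ⟨c₁, h₁⟩ := inX hF
  obtain ⟨c₂, h₂⟩ := outX hF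
  obtain ⟨c₃, h₃⟩ := or_elim hF
  obtain ⟨c₄, h₄⟩ := UT hF
  obtain ⟨c₅, h₅⟩ := evW hF
  obtain ⟨c₆, h₆⟩ := sch1 hF (imp (var 1) (var 2)) (imp (var 0) (imp (var 1) (var 2))) (by
    intro v h; simp [eval] at h ⊢; tauto)
  obtain ⟨c₇, h₇⟩ := sch2 hF (imp (var 0) (var 1)) (imp (var 0) (imp (var 1) (var 2)))
    (imp (var 0) (var 2)) (by
    intro v h; simp [eval] at h ⊢; tauto)
  obtain ⟨c₈, h₈⟩ := sch2 hF (neg (Fm.and (var 1) (var 2))) (imp (var 0) (var 1))
    (imp (var 0) (imp (var 2) (neg (imp (var 3) (var 3))))) (by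
    intro v h; simp [eval] at h ⊢; tauto)
  obtain ⟨c₉, h₉⟩ := sch2 hF (imp (var 0) (var 1)) (imp (var 0) (imp (var 1)
    (neg (imp (var 2) (var 2))))) (neg (var 0)) (by
    intro v h; simp [eval] at h ⊢; tauto)
  refine ⟨c₀ + (c₁ + c₂ + 2 * c₃ + c₄ + c₆ + c₇ + c₅ + 1 + c₈) + 2 * c₃ + c₉,
    fun P H L M cnt h => ?_⟩
  have hU := h.U
  have hM := h.M1
  have hHP := h.HP
  have hPW := h.PW
  have hWM := h.MW
  have h0W : 0 < 2 ^ L := by omega
  have hvar : ∀ n, (var n).size ≤ M := fun n => by simpa [size] using hM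
  have q : ∀ a b : ℕ, a ≤ b → M ^ a ≤ M ^ b := fun a b hab => Nat.pow_le_pow_right hM hab
  have hHM : H + 1 ≤ M := by omega
  -- the literals
  have lits : ∀ n < 2 ^ L, Ca F ∅ [imp (UU P H) (sg (decide (n < P)) (XX P H n))]
      ((c₁ + c₂ + 2 * c₃ + c₄ + c₆ + c₇) * M ^ 4) := by
    intro n _
    have hX := XX_size P H n
    by_cases hn : n < P
    · have a : ∀ b < H, Ca F ∅ [imp (UU P H) (imp (var (Nat.pair n b)) (XX P H n))]
          ((c₁ + c₆) * M ^ 2) := by
        intro b hb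
        have e := h₆ [UU P H, var (Nat.pair n b), XX P H n] M _ hM (by
            intro X hX; simp only [List.mem_cons, List.not_mem_nil, or_false] at hX
            rcases hX with rfl | rfl | rfl
            exacts [by omega, hvar _, by omega])
          (by simpa [subst, asg] using h₁ P H L M cnt h n hn H le_rfl b hb)
        refine Ca.le (by simpa [subst, asg] using e) ?_
        have t1 : c₁ * M * (H + 1) ≤ c₁ * M * M := Nat.mul_le_mul_left _ hHM
        have t2 : c₆ * M ≤ c₆ * M * M := Nat.le_mul_of_pos_right _ hM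
        nlinarith
      have hOR : (OR ((List.range H).map fun b => var (Nat.pair n b))).size ≤ M := by
        have := OR_size ((List.range H).map fun b => var (Nat.pair n b)) 1 (by
          intro A hA
          obtain ⟨i, _, rfl⟩ := List.mem_map.1 hA
          simp [size])
        simp only [List.length_map, List.length_range] at this; omega
      have e := h₃ (UU P H) (XX P H n) ((List.range H).map fun b => var (Nat.pair n b)) M _
        (by omega) (by omega) hOR (by
          intro A hA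
          obtain ⟨b, hb, rfl⟩ := List.mem_map.1 hA
          exact a b (List.mem_range.1 hb))
      rw [List.length_map, List.length_range] at e
      have e' := h₇ [UU P H, OR ((List.range H).map fun b => var (Nat.pair n b)), XX P H n] M _ _
        hM (by
            intro X hX; simp only [List.mem_cons, List.not_mem_nil, or_false] at hX
            rcases hX with rfl | rfl | rfl
            exacts [by omega, by omega, by omega])
        (by simpa [subst, asg] using h₄ P H L M cnt h n hn) (by simpa [subst, asg] using e)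
      refine Ca.le (by simpa [subst, asg, sg, hn] using e') ?_
      have t1 : c₄ * M * M ≤ c₄ * M ^ 4 := by
        calc c₄ * M * M = c₄ * M ^ 2 := by ring
          _ ≤ _ := Nat.mul_le_mul_left _ (q _ _ (by norm_num))
      have t2 : H * ((c₁ + c₆) * M ^ 2) ≤ (c₁ + c₆) * M ^ 4 := by
        calc H * ((c₁ + c₆) * M ^ 2) ≤ M * ((c₁ + c₆) * M ^ 2) :=
              Nat.mul_le_mul_right _ (by omega)
          _ = (c₁ + c₆) * M ^ 3 := by ring
          _ ≤ _ := Nat.mul_le_mul_left _ (q _ _ (by norm_num))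
      have t3 : c₃ * M * (H + 1) ≤ 2 * c₃ * M ^ 4 := by
        calc c₃ * M * (H + 1) ≤ c₃ * M * M := Nat.mul_le_mul_left _ hHM
          _ = c₃ * M ^ 2 := by ring
          _ ≤ c₃ * M ^ 4 := Nat.mul_le_mul_left _ (q _ _ (by norm_num))
          _ ≤ 2 * c₃ * M ^ 4 := by nlinarith [Nat.zero_le (c₃ * M ^ 4)]
      have t4 : c₇ * M ≤ c₇ * M ^ 4 := by
        calc c₇ * M = c₇ * M ^ 1 := by ring
          _ ≤ _ := Nat.mul_le_mul_left _ (q _ _ (by norm_num))
      calc _ ≤ c₄ * M ^ 4 + ((c₁ + c₆) * M ^ 4 + 2 * c₃ * M ^ 4) + c₇ * M ^ 4 := by omega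
        _ ≤ _ := by nlinarith [Nat.zero_le (c₂ * M ^ 4)]
    · have e := h₂ P H L M cnt h n (by omega) H le_rfl
      refine Ca.le (by simpa [sg, hn] using e) ?_
      calc c₂ * M * (H + 1) ≤ c₂ * M * M := Nat.mul_le_mul_left _ hHM
        _ = c₂ * M ^ 2 := by ring
        _ ≤ c₂ * M ^ 4 := Nat.mul_le_mul_left _ (q _ _ (by norm_num))
        _ ≤ _ := Nat.mul_le_mul_right _ (by omega)
  have hP := h.substsize' (h.XXs le_rfl) hPW
  have eP := h₅ (fun n => decide (n < P)) (XX P H) (UU P H) M (2 ^ L) _ (by omega) (cnt P)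
    (by omega) (h.cntsize hPW) (h.vars P hPW) lits
    (by rw [h.sem _ P hPW, ncard_lt hPW.le, Nat.mod_eq_of_lt hPW])
  have cP : 2 ^ L * ((c₁ + c₂ + 2 * c₃ + c₄ + c₆ + c₇) * M ^ 4) + c₅ * M * M ≤
      (c₁ + c₂ + 2 * c₃ + c₄ + c₆ + c₇ + c₅) * M ^ 5 := by
    have t1 : 2 ^ L * ((c₁ + c₂ + 2 * c₃ + c₄ + c₆ + c₇) * M ^ 4) ≤
        (c₁ + c₂ + 2 * c₃ + c₄ + c₆ + c₇) * M ^ 5 := by
      calc _ ≤ M * ((c₁ + c₂ + 2 * c₃ + c₄ + c₆ + c₇) * M ^ 4) := Nat.mul_le_mul_right _ hWM
        _ = _ := by ring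
    have t2 : c₅ * M * M ≤ c₅ * M ^ 5 := by
      calc c₅ * M * M = c₅ * M ^ 2 := by ring
        _ ≤ _ := Nat.mul_le_mul_left _ (q _ _ (by norm_num))
    calc _ ≤ (c₁ + c₂ + 2 * c₃ + c₄ + c₆ + c₇) * M ^ 5 + c₅ * M ^ 5 := by omega
      _ = _ := by ring
  have eP := Ca.le eP cP
  have hZ := ZZ_size h (j := H) le_rfl
  have key : ∀ s < H + 1, Ca F ∅ [imp (UU P H) (imp ((cnt s).subst (XX P H)) fls)]
      ((c₁ + c₂ + 2 * c₃ + c₄ + c₆ + c₇ + c₅ + 1 + c₈) * M ^ 5) := by
    intro s hs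
    have hsW : s < 2 ^ L := by omega
    have hS := h.substsize' (h.XXs le_rfl) hsW
    have e := h₈ [UU P H, (cnt P).subst (XX P H), (cnt s).subst (XX P H), var 0] M _ _ hM (by
            intro X hX; simp only [List.mem_cons, List.not_mem_nil, or_false] at hX
            rcases hX with rfl | rfl | rfl | rfl
            exacts [by omega, by omega, by omega, hvar _])
      (by simpa [subst, asg] using h.excl P s hPW hsW (by omega))
      (by simpa [subst, asg] using eP)
    refine Ca.le (by simpa [subst, asg, fls] using e) ?_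
    have t1 : M ≤ M ^ 5 := by
      calc M = M ^ 1 := by ring
        _ ≤ _ := q _ _ (by norm_num)
    have t2 : c₈ * M ≤ c₈ * M ^ 5 := Nat.mul_le_mul_left _ t1
    nlinarith
  have e := h₃ (UU P H) fls ((List.range (H + 1)).map fun s => (cnt s).subst (XX P H)) M _
    (by omega) (by rw [fls_size]; omega) hZ (by
      intro A hA
      obtain ⟨s, hs, rfl⟩ := List.mem_map.1 hA
      exact key s (List.mem_range.1 hs))
  rw [List.length_map, List.length_range] at e
  have e' := h₉ [UU P H, ZZ cnt P H, var 0] M _ _ hM (by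
            intro X hX; simp only [List.mem_cons, List.not_mem_nil, or_false] at hX
            rcases hX with rfl | rfl | rfl
            exacts [by omega, by omega, hvar _])
    (by simpa [subst, asg] using h₀ P H L M cnt h H le_rfl)
    (by simpa [subst, asg, fls, ZZ] using e)
  refine Ca.le (by simpa [subst, asg] using e') ?_
  have t1 : c₀ * M ^ 5 * (H + 1) ≤ c₀ * M ^ 6 := by
    calc _ ≤ c₀ * M ^ 5 * M := Nat.mul_le_mul_left _ hHM
      _ = _ := by ring
  have t2 : (H + 1) * ((c₁ + c₂ + 2 * c₃ + c₄ + c₆ + c₇ + c₅ + 1 + c₈) * M ^ 5) ≤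
      (c₁ + c₂ + 2 * c₃ + c₄ + c₆ + c₇ + c₅ + 1 + c₈) * M ^ 6 := by
    calc _ ≤ M * ((c₁ + c₂ + 2 * c₃ + c₄ + c₆ + c₇ + c₅ + 1 + c₈) * M ^ 5) :=
          Nat.mul_le_mul_right _ hHM
      _ = _ := by ring
  have t3 : c₃ * M * (H + 1 + 1) ≤ 2 * c₃ * M ^ 6 := by
    calc c₃ * M * (H + 1 + 1) ≤ c₃ * M * (2 * M) := Nat.mul_le_mul_left _ (by omega)
      _ = 2 * c₃ * M ^ 2 := by ring
      _ ≤ _ := Nat.mul_le_mul_left _ (q _ _ (by norm_num))
  have t4 : c₉ * M ≤ c₉ * M ^ 6 := by
    calc c₉ * M = c₉ * M ^ 1 := by ring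
      _ ≤ _ := Nat.mul_le_mul_left _ (q _ _ (by norm_num))
  calc _ ≤ c₀ * M ^ 6 + ((c₁ + c₂ + 2 * c₃ + c₄ + c₆ + c₇ + c₅ + 1 + c₈) * M ^ 6 +
        2 * c₃ * M ^ 6) + c₉ * M ^ 6 := by omega
    _ = _ := by ring

end Pool.Agent.Y511.KL
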